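import Pool.Agent.helper17.SG.SpecB

/-!
# Project sg: B07 (packing)
-/

set_option autoImplicit false

open MeasureTheory Set Metric Filter Topology
open scoped ENNReal NNReal ComplexConjugate

namespace Pool.Agent.SG

theorem B07_est {z0 z1 : ℂ} {K r : ℝ} (h0 : ‖z0‖ < 1) (hk : 1 - ‖z0‖ ^ 2 ≤ K) (hr : ‖z0 - z1‖ ≤ r) :
    ‖1 - conj z0 * z1‖ ≤ K + r := by
  have e1 : 1 - conj z0 * z1 = ((1 - ‖z0‖ ^ 2 : ℝ) : ℂ) + conj z0 * (z0 - z1) := by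
    have h := Complex.conj_mul' z0
    push_cast
    rw [← h]
    ring
  rw [e1]
  refine (norm_add_le _ _).trans ?_
  have h2 : ‖((1 - ‖z0‖ ^ 2 : ℝ) : ℂ)‖ ≤ K := by
    rw [Complex.norm_real, Real.norm_eq_abs, abs_of_nonneg]
    · exact hk
    · nlinarith [norm_nonneg z0]
  have h3 : ‖conj z0 * (z0 - z1)‖ ≤ r := by
    rw [norm_mul, RCLike.norm_conj]
    calc ‖z0‖ * ‖z0 - z1‖ ≤ 1 * ‖z0 - z1‖ :=
          mul_le_mul_of_nonneg_right h0.le (norm_nonneg _)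
      _ ≤ r := by linarith
  linarith

theorem B07 (h3 : B03_stmt) : B07_stmt := by
  classical
  intro Γ _ A hD M hM
  obtain ⟨hk, -, -, hp, -, -, -, hkk, -⟩ := h3 Γ A
  have hM0 : (0 : ℝ) < M := by linarith
  have hc : (0 : ℝ) < 1 / (9 * M ^ 4) := by positivity
  have hfin : {δ | 1 / (9 * M ^ 4) ≤ A.kk δ}.Finite := by
    have hr : Real.sqrt (1 - 1 / (9 * M ^ 4)) < 1 := by
      rw [Real.sqrt_lt' one_pos]
      linarith
    refine (hD _ hr).subset ?_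
    intro δ hδ
    have h1 : 1 / (9 * M ^ 4) ≤ 1 - ‖A.pt δ‖ ^ 2 := hδ
    show ‖A.pt δ‖ ≤ _
    apply Real.le_sqrt_of_sq_le
    linarith
  refine ⟨hfin, ?_⟩
  intro z τ hτ F hF
  rcases F.eq_empty_or_nonempty with rfl | ⟨γ₀, hγ₀⟩
  · simp
  obtain ⟨a1, a2, a3⟩ := hF γ₀ hγ₀
  have hsub : ((F.image fun γ => γ₀⁻¹ * γ : Finset Γ) : Set Γ) ⊆ {δ | 1 / (9 * M ^ 4) ≤ A.kk δ} := by
    intro δ hδ
    rw [Finset.mem_coe, Finset.mem_image] at hδ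
    obtain ⟨γ, hγ, rfl⟩ := hδ
    obtain ⟨b1, b2, b3⟩ := hF γ hγ
    have h1 := hkk γ₀ γ
    have h2 : ‖1 - conj (A.pt γ₀) * A.pt γ‖ ≤ M * τ + 2 * (M * τ) := by
      refine B07_est (hp γ₀) a2 ?_
      have e1 : A.pt γ₀ - A.pt γ = (A.pt γ₀ - z) - (A.pt γ - z) := by ring
      rw [e1]
      exact (norm_sub_le _ _).trans (by linarith)
    have h4 : ‖1 - conj (A.pt γ₀) * A.pt γ‖ ^ 2 ≤ (3 * (M * τ)) ^ 2 :=
      pow_le_pow_left₀ (norm_nonneg _) (by linarith) 2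
    have h5 : (τ / M) * (τ / M) ≤ A.kk γ₀ * A.kk γ :=
      mul_le_mul a1 b1 (by positivity) (hk γ₀).1.le
    have h6 : (τ / M) * (τ / M) ≤ A.kk (γ₀⁻¹ * γ) * (3 * (M * τ)) ^ 2 := by
      refine h5.trans ?_
      rw [← h1]
      exact mul_le_mul_of_nonneg_left h4 (hk _).1.le
    show 1 / (9 * M ^ 4) ≤ A.kk (γ₀⁻¹ * γ)
    have h7 : (τ / M) * (τ / M) = 1 / (9 * M ^ 4) * (3 * (M * τ)) ^ 2 := by
      field_simp
      norm_num
    rw [h7] at h6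
    exact le_of_mul_le_mul_right h6 (by positivity)
  have h8 := Set.ncard_le_ncard hsub hfin
  rw [Set.ncard_coe_finset, Finset.card_image_of_injective _ (mul_right_injective γ₀⁻¹)] at h8
  exact h8

end Pool.Agent.SG
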