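import Pool.Agent.helper68.SG.SpecF

/-!
# Project sg: F05
-/

set_option autoImplicit false

open MeasureTheory Set Metric Filter Topology
open scoped ENNReal NNReal ComplexConjugate commutatorElement

namespace Pool.Agent.SG

theorem F05 : F05_stmt := by
  intro g hg
  have : NeZero g := ⟨by omega⟩
  let f : Fin g × Bool → Multiplicative ℝ := fun x =>
    if x = (0, false) then Multiplicative.ofAdd 1 else 1
  have hrel : ∀ r ∈ ({surfRel g} : Set (FreeGroup (Fin g × Bool))), FreeGroup.lift f r = 1 := by
    intro r hr
    rw [mem_singleton_iff] at hr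
    subst hr
    unfold surfRel
    rw [map_list_prod]
    apply List.prod_eq_one
    intro y hy
    rw [List.mem_map] at hy
    obtain ⟨z, hz, rfl⟩ := hy
    rw [List.mem_ofFn] at hz
    obtain ⟨i, rfl⟩ := hz
    rw [map_commutatorElement, commutatorElement_eq_one_iff_mul_comm, mul_comm]
  refine ⟨PresentedGroup.toGroup hrel, ?_⟩
  intro h
  have h1 := DFunLike.congr_fun h (PresentedGroup.of ((0 : Fin g), false))
  rw [PresentedGroup.toGroup.of] at h1
  have h2 : f (0, false) = Multiplicative.ofAdd 1 := if_pos rfl
  rw [h2] at h1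
  have h3 : (1 : ℝ) = 0 := congrArg Multiplicative.toAdd h1
  exact one_ne_zero h3

end Pool.Agent.SG
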