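import Pool.Agent.helper3.SG.SpecS

/-!
# sg:S02 Norms of the coefficients of a discrete representation
-/

set_option autoImplicit false

open MeasureTheory Set Metric Filter Topology
open scoped ENNReal NNReal ComplexConjugate

namespace Pool.Agent.SG

theorem S02 (hS01 : S01_stmt) : S02_stmt := by
  intro Γ _ A
  obtain ⟨hmul, hone, hinv⟩ := hS01 Γ A
  have hn := A.norm_eq
  have ha1 : ∀ γ, 1 ≤ ‖A.a γ‖ := by
    intro γ
    have h1 := hn γ
    nlinarith [norm_nonneg (A.a γ), sq_nonneg ‖A.b γ‖]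
  have hba : ∀ γ, ‖A.b γ‖ ≤ ‖A.a γ‖ := by
    intro γ
    have h1 := hn γ
    have h2 := ha1 γ
    apply le_of_sq_le_sq _ (by linarith)
    linarith
  have ha0 : ∀ γ, A.a γ ≠ 0 := by
    intro γ h
    have := ha1 γ
    rw [h, norm_zero] at this
    linarith
  have hca0 : ∀ γ, conj (A.a γ) ≠ 0 := by
    intro γ h
    exact ha0 γ (by simpa using h)
  have heps : ∀ ε : ℂ, (ε = 1 ∨ ε = -1) → ‖ε‖ = 1 := by
    rintro ε (h | h) <;> simp [h]
  have hprod : ∀ γ δ, ‖A.a (γ * δ)‖ ≤ 2 * ‖A.a γ‖ * ‖A.a δ‖ := by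
    intro γ δ
    obtain ⟨ε, hε, h1, -⟩ := hmul γ δ
    rw [h1, norm_mul, heps ε hε, one_mul]
    refine (norm_add_le _ _).trans ?_
    rw [norm_mul, norm_mul, RCLike.norm_conj]
    have h3 := mul_le_mul (hba γ) (hba δ) (norm_nonneg _) (norm_nonneg _)
    linarith
  have hi : ∀ γ, ‖A.a γ⁻¹‖ = ‖A.a γ‖ := by
    intro γ
    obtain ⟨ε, hε, h1, -⟩ := hinv γ
    rw [h1, norm_mul, heps ε hε, one_mul, RCLike.norm_conj]
  have hpt : ∀ γ, A.pt γ = A.b γ / conj (A.a γ) := by
    intro γ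
    simp [DiscRep.pt, DiscRep.act, mob]
  have hkk : ∀ γ, A.kk γ = 1 / ‖A.a γ‖ ^ 2 := by
    intro γ
    have h1 := hn γ
    have h2 : ‖A.a γ‖ ^ 2 ≠ 0 := by
      have := ha1 γ
      positivity
    rw [DiscRep.kk, hpt, norm_div, RCLike.norm_conj, div_pow, eq_div_iff h2, sub_mul,
      div_mul_cancel₀ _ h2]
    linarith
  refine ⟨ha1, hba, hprod, hi, hpt, hkk, ?_, ?_⟩
  · intro γ δ
    obtain ⟨ε, hε, h1, -⟩ := hmul γ⁻¹ δ
    obtain ⟨ε', hε', h2, h3⟩ := hinv γ
    rw [h1, norm_mul, heps ε hε, one_mul, h2, h3, hpt, hpt]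
    have h4 : ε' * conj (A.a γ) * A.a δ + -(ε' * A.b γ) * conj (A.b δ)
        = ε' * (conj (A.a γ) * A.a δ - A.b γ * conj (A.b δ)) := by ring
    rw [h4, norm_mul, heps ε' hε', one_mul]
    have h5 : ‖conj (A.a γ) * A.a δ - A.b γ * conj (A.b δ)‖
        = ‖A.a γ * conj (A.a δ) - conj (A.b γ) * A.b δ‖ := by
      rw [← RCLike.norm_conj (conj (A.a γ) * A.a δ - A.b γ * conj (A.b δ))]
      simp
    rw [h5]
    have h6 : A.a γ * conj (A.a δ) - conj (A.b γ) * A.b δ
        = (1 - conj (A.b γ / conj (A.a γ)) * (A.b δ / conj (A.a δ))) * A.a γ * conj (A.a δ) := by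
      have h7 := ha0 γ
      have h8 := hca0 δ
      simp only [map_div₀, Complex.conj_conj]
      field_simp
    rw [h6, norm_mul, norm_mul, RCLike.norm_conj]
  · have hact : ∀ γ, ‖A.act γ 0‖ ^ 2 = 1 - 1 / ‖A.a γ‖ ^ 2 := by
      intro γ
      have h1 := hkk γ
      rw [DiscRep.kk, DiscRep.pt] at h1
      linarith
    constructor
    · intro hd K
      by_cases hK : K < 1
      · refine Set.Finite.subset Set.finite_empty ?_
        intro γ hγ
        have h1 : ‖A.a γ‖ ≤ K := hγ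
        have := ha1 γ
        linarith
      · push Not at hK
        have hK2 : 0 < K ^ 2 := by positivity
        have hr : Real.sqrt (1 - 1 / K ^ 2) < 1 := by
          rw [Real.sqrt_lt' one_pos]
          have : 0 < 1 / K ^ 2 := by positivity
          linarith
        refine (hd _ hr).subset ?_
        intro γ hγ
        have h1 : ‖A.a γ‖ ≤ K := hγ
        show ‖A.act γ 0‖ ≤ Real.sqrt (1 - 1 / K ^ 2)
        apply Real.le_sqrt_of_sq_le
        rw [hact]
        have h2 := ha1 γ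
        have h3 : ‖A.a γ‖ ^ 2 ≤ K ^ 2 := by
          apply pow_le_pow_left₀ (norm_nonneg _) h1
        have h4 : 1 / K ^ 2 ≤ 1 / ‖A.a γ‖ ^ 2 := by
          apply one_div_le_one_div_of_le _ h3
          positivity
        linarith
    · intro hd r hr
      by_cases hr0 : r < 0
      · refine Set.Finite.subset Set.finite_empty ?_
        intro γ hγ
        have h1 : ‖A.act γ 0‖ ≤ r := hγ
        have := norm_nonneg (A.act γ 0)
        linarith
      · push Not at hr0
        have h1 : 0 < 1 - r ^ 2 := by nlinarith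
        refine (hd (Real.sqrt (1 / (1 - r ^ 2)))).subset ?_
        intro γ hγ
        have h2 : ‖A.act γ 0‖ ≤ r := hγ
        show ‖A.a γ‖ ≤ Real.sqrt (1 / (1 - r ^ 2))
        apply Real.le_sqrt_of_sq_le
        have h3 : ‖A.act γ 0‖ ^ 2 ≤ r ^ 2 := pow_le_pow_left₀ (norm_nonneg _) h2 2
        rw [hact] at h3
        have h4 : 0 < ‖A.a γ‖ ^ 2 := by
          have := ha1 γ
          positivity
        have h5 : 1 - r ^ 2 ≤ 1 / ‖A.a γ‖ ^ 2 := by linarith
        rw [le_div_iff₀ h1]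
        rw [le_div_iff₀ h4] at h5
        linarith

end Pool.Agent.SG
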