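import Pool.Agent.helper3.SG.SpecS

/-!
# sg:S31 A set of positive stationary measure of small dimension
-/

set_option autoImplicit false

open MeasureTheory Set Metric Filter Topology
open scoped ENNReal NNReal ComplexConjugate Pointwise

namespace Pool.Agent.SG

theorem S31_meas_mob (a b : ℂ) : Measurable (mob a b) := by
  unfold mob
  fun_prop

/-- small balls centered on the circle have measure at most one half -/
theorem S31_small (ν : Measure ℂ) [IsFiniteMeasure ν] (hat : ∀ x, ν {x} = 0) :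
    ∃ r : ℝ, 0 < r ∧ r ≤ 1 ∧ ∀ x ∈ circ, ν (ball x r) ≤ 1 / 2 := by
  have h1 : ∀ x : ℂ, ∃ U : Set ℂ, x ∈ U ∧ IsOpen U ∧ ν U ≤ 1 / 2 := by
    intro x
    obtain ⟨U, hU, hU2, hU3⟩ := ({x} : Set ℂ).exists_isOpen_lt_of_lt (μ := ν) (1 / 2) (by
      rw [hat]; simp)
    exact ⟨U, hU rfl, hU2, hU3.le⟩
  choose U hU1 hU2 hU3 using h1
  obtain ⟨δ, hδ, hδ2⟩ := lebesgue_number_lemma_of_metric (s := circ) (c := U)
    (isCompact_sphere 0 1) hU2 (fun x _ => mem_iUnion.2 ⟨x, hU1 x⟩)
  refine ⟨min δ 1, by positivity, min_le_right _ _, ?_⟩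
  intro x hx
  obtain ⟨i, hi⟩ := hδ2 x hx
  exact (measure_mono ((ball_subset_ball (min_le_left _ _)).trans hi)).trans (hU3 i)

section
variable {Γ : Type} [Group Γ]

theorem S31_den (A : DiscRep Γ) (γ : Γ) (z : ℂ) (hz : ‖z‖ ≤ 1) :
    conj (A.b γ) * z + conj (A.a γ) ≠ 0 := by
  intro h
  have h1 : conj (A.a γ) = -(conj (A.b γ) * z) := by linear_combination h
  have h2 : ‖A.a γ‖ = ‖A.b γ‖ * ‖z‖ := by
    rw [← RCLike.norm_conj (A.a γ), h1, norm_neg, norm_mul, RCLike.norm_conj]
  have h3 := A.norm_eq γ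
  have h4 : ‖A.a γ‖ ≤ ‖A.b γ‖ := by
    rw [h2]
    exact mul_le_of_le_one_right (norm_nonneg _) hz
  nlinarith [norm_nonneg (A.a γ)]

/-- the action preserves the circle -/
theorem S31_circ (A : DiscRep Γ) (γ : Γ) (z : ℂ) (hz : z ∈ circ) : A.act γ z ∈ circ := by
  have hz1 : ‖z‖ = 1 := by simpa [circ] using hz
  have h0 := S31_den A γ z hz1.le
  have hzz : z * conj z = 1 := by
    rw [Complex.mul_conj, Complex.normSq_eq_norm_sq, hz1]
    simp
  show A.act γ z ∈ sphere (0 : ℂ) 1
  rw [mem_sphere_zero_iff_norm, DiscRep.act, mob, norm_div, div_eq_one_iff_eq (by simpa using h0)]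
  have h1 : A.a γ * z + A.b γ = z * conj (conj (A.b γ) * z + conj (A.a γ)) := by
    simp only [map_add, map_mul, Complex.conj_conj]
    linear_combination (-A.b γ) * hzz
  rw [h1, norm_mul, hz1, one_mul, RCLike.norm_conj]

/-- the identity acts trivially on the circle -/
theorem S31_one (hS02 : S02_stmt) (A : DiscRep Γ) (z : ℂ) (hz : ‖z‖ ≤ 1) : A.act 1 z = z := by
  obtain ⟨ha1, -, -, -, -, hkk, hgd, -⟩ := hS02 Γ A
  have h1 := hgd 1 1
  rw [inv_one, mul_one] at h1
  have hz2 : conj (A.pt 1) * A.pt 1 = ((‖A.pt 1‖ ^ 2 : ℝ) : ℂ) := by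
    rw [mul_comm, Complex.mul_conj, Complex.normSq_eq_norm_sq]
  have h2 : ‖1 - conj (A.pt 1) * A.pt 1‖ = |A.kk 1| := by
    rw [hz2, DiscRep.kk, ← Complex.ofReal_one, ← Complex.ofReal_sub, Complex.norm_real,
      Real.norm_eq_abs]
  have h3 : 1 ≤ ‖A.a 1‖ := ha1 1
  have h4 : ‖A.a 1‖ = 1 := by
    rw [h2, hkk, abs_of_nonneg (by positivity)] at h1
    have h5 : ‖A.a 1‖ ≠ 0 := by linarith
    field_simp at h1
    linarith
  have h5 : A.b 1 = 0 := by
    have h6 := A.norm_eq 1
    rw [h4] at h6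
    have h7 : ‖A.b 1‖ ^ 2 = 0 := by linarith
    exact norm_eq_zero.1 (pow_eq_zero_iff (two_ne_zero) |>.1 h7)
  have h6 := A.map_mul 1 1 z hz
  have hm : ∀ w, mob (A.a 1) (A.b 1) w = A.a 1 / conj (A.a 1) * w := by
    intro w
    rw [mob, h5]
    simp
    ring
  have hca : conj (A.a 1) ≠ 0 := by
    intro h
    have h8 : A.a 1 = 0 := by simpa using h
    rw [h8, norm_zero] at h4
    exact zero_ne_one h4
  have ha : A.a 1 ≠ 0 := by
    intro h
    rw [h, norm_zero] at h4
    exact zero_ne_one h4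
  rw [mul_one] at h6
  rw [DiscRep.act, hm]
  have h7 := A.map_mul 1 1 1 (by simp)
  rw [mul_one, hm, hm] at h7
  have hk : A.a 1 / conj (A.a 1) ≠ 0 := div_ne_zero ha hca
  have h8 : A.a 1 / conj (A.a 1) = 1 := by
    have h9 : A.a 1 / conj (A.a 1) * 1 = A.a 1 / conj (A.a 1) * (A.a 1 / conj (A.a 1) * 1) := h7
    have h10 := mul_left_cancel₀ hk h9
    simpa using h10.symm
  rw [h8, one_mul]

theorem S31_mono [DecidableEq Γ] (W : Walk Γ) : ∀ (n : ℕ) (F G : Γ → ℝ) (y : Γ),
    (∀ p ∈ W.S ^ n, F (y * p) ≤ G (y * p)) → (W.avr^[n]) F y ≤ (W.avr^[n]) G y := by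
  intro n
  induction n with
  | zero =>
    intro F G y h
    have := h 1 (by simp)
    simpa using this
  | succ n ih =>
    intro F G y h
    rw [Function.iterate_succ_apply, Function.iterate_succ_apply]
    apply ih
    intro p hp
    unfold Walk.avr
    apply Finset.sum_le_sum
    intro s hs
    apply mul_le_mul_of_nonneg_left _ ENNReal.toReal_nonneg
    rw [mul_assoc]
    apply h
    rw [pow_succ]
    exact Finset.mul_mem_mul hp hs

theorem S31_harm (A : DiscRep Γ) (W : Walk Γ) (ν : Measure ℂ) (h : Stat A W ν) (E : Set ℂ)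
    (hE : MeasurableSet E) (x : Γ) :
    W.avr (fun x => 2 * (ν (A.act x ⁻¹' E)).toReal) x = 2 * (ν (A.act x ⁻¹' E)).toReal := by
  have hp := h.prob
  have hm : ∀ x, Measurable (A.act x) := fun x => S31_meas_mob _ _
  have hμ : ∀ s ∈ W.S, W.μ s ≠ ∞ := by
    intro s hs
    have h1 : W.μ s ≤ ∑ s ∈ W.S, W.μ s := Finset.single_le_sum (fun _ _ => zero_le) hs
    rw [W.sum] at h1
    exact ne_top_of_le_ne_top ENNReal.one_ne_top h1
  have h1 : ν (A.act x ⁻¹' E) = ∑ s ∈ W.S, W.μ s * ν (A.act (x * s) ⁻¹' E) := by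
    conv_lhs => rw [h.stat]
    rw [Measure.finsetSum_apply]
    apply Finset.sum_congr rfl
    intro s hs
    rw [Measure.smul_apply, smul_eq_mul, Measure.map_apply (hm s) (hm x hE)]
    congr 1
    have h2 : ∀ S : Set ℂ, ν S = ν (S ∩ circ) := by
      intro S
      refine (measure_inter_conull ?_).symm
      exact h.supp
    rw [h2, h2 (A.act (x * s) ⁻¹' E)]
    congr 1
    ext ξ
    constructor
    · rintro ⟨h3, h4⟩
      refine ⟨?_, h4⟩
      have h5 := A.map_mul x s ξ (by
        have : ‖ξ‖ = 1 := by simpa [circ] using h4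
        exact this.le)
      show mob _ _ ξ ∈ E
      rw [h5]
      exact h3
    · rintro ⟨h3, h4⟩
      refine ⟨?_, h4⟩
      have h5 := A.map_mul x s ξ (by
        have : ‖ξ‖ = 1 := by simpa [circ] using h4
        exact this.le)
      have h6 : mob (A.a (x * s)) (A.b (x * s)) ξ ∈ E := h3
      rw [h5] at h6
      exact h6
  rw [Walk.avr, h1, ENNReal.toReal_sum (fun s hs => ENNReal.mul_ne_top (hμ s hs)
    (measure_ne_top _ _)), Finset.mul_sum]
  apply Finset.sum_congr rfl
  intro s hs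
  rw [ENNReal.toReal_mul]
  ring

end

theorem S31 (hS02 : S02_stmt) (hS28 : S28_stmt) (hS29 : S29_stmt) (hS30 : S30_stmt) :
    S31_stmt := by
  classical
  intro Γ _ A W ν hst hat t ht hl hlt
  have hp := hst.prob
  have hm : ∀ x, Measurable (A.act x) := fun x => S31_meas_mob _ _
  have hms : ∀ S : Set ℂ, ν S = ν (S ∩ circ) := by
    intro S
    refine (measure_inter_conull ?_).symm
    exact hst.supp
  set l := ell A W ν with hldef
  -- choice of ε
  obtain ⟨ε, hε0, hεl, hεt⟩ : ∃ ε : ℝ, 0 < ε ∧ ε < l ∧ Real.log W.S.card < (l - ε) * t := by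
    have h1 : 0 < l - Real.log W.S.card / t := by
      rw [sub_pos, div_lt_iff₀ ht]
      exact hlt
    refine ⟨min (l / 2) ((l - Real.log W.S.card / t) / 2), by positivity, ?_, ?_⟩
    · have := min_le_left (l / 2) ((l - Real.log W.S.card / t) / 2)
      linarith
    · have h2 := min_le_right (l / 2) ((l - Real.log W.S.card / t) / 2)
      have h3 : Real.log W.S.card / t < l - min (l / 2) ((l - Real.log W.S.card / t) / 2) := by
        linarith
      rwa [div_lt_iff₀ ht] at h3
  obtain ⟨η, hη, hηn⟩ := hS28 Γ A W ν hst ε hε0 hεl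
  obtain ⟨r, hr0, hr1, hr⟩ := S31_small ν hat
  choose ρ hρ K hK hKc hKd hKi using fun x => hS29 Γ A x r hr0 hr1
  -- the half mass
  have hhalf : ∀ x, 1 / 2 ≤ ν (A.act x ⁻¹' K x) := by
    intro x
    have h1 : ν (ball (ρ x) r) ≤ 1 / 2 := by
      rcases hρ x with h | h
      · exact hr _ h
      · rw [hms, h]
        have h2 : ball (0 : ℂ) r ∩ circ = ∅ := by
          ext z
          simp only [mem_inter_iff, mem_ball_zero_iff, circ, mem_sphere_zero_iff_norm,
            mem_empty_iff_false, iff_false, not_and]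
          intro h3 h4
          linarith
        rw [h2, measure_empty]
        exact zero_le
    have h3 : A.act x ⁻¹' K x ∩ circ = (ball (ρ x) r)ᶜ ∩ circ := by
      ext ξ
      constructor
      · rintro ⟨h4, h5⟩
        exact ⟨(hKi x ξ h5).1 h4, h5⟩
      · rintro ⟨h4, h5⟩
        exact ⟨(hKi x ξ h5).2 h4, h5⟩
    rw [hms, h3, ← hms, prob_compl_eq_one_sub measurableSet_ball]
    calc (1 / 2 : ℝ≥0∞) = 1 - 1 / 2 := by
          rw [one_div, ENNReal.one_sub_inv_two]
      _ ≤ 1 - ν (ball (ρ x) r) := tsub_le_tsub_left h1 1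
  -- the sets
  let G : ℕ → Finset Γ := fun n =>
    (W.S ^ n).filter (fun x => (n : ℝ) * (l - ε) ≤ 2 * Real.log (2 * ‖A.a x‖))
  let E : ℕ → Set ℂ := fun n => ⋃ x ∈ G n, K x
  have hEm : ∀ n, MeasurableSet (E n) := by
    intro n
    apply Finset.measurableSet_biUnion
    intro x _
    exact (hKc x).measurableSet
  have hE1 : ∀ n, η / 2 ≤ (ν (E n)).toReal := by
    intro n
    have h1 : (W.avr^[n]) (fun x => 2 * (ν (A.act x ⁻¹' E n)).toReal) =
        fun x => 2 * (ν (A.act x ⁻¹' E n)).toReal := by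
      apply Function.iterate_fixed
      funext x
      exact S31_harm A W ν hst (E n) (hEm n) x
    have h2 := S31_mono W n (Set.indicator
      {x | (n : ℝ) * (l - ε) ≤ 2 * Real.log (2 * ‖A.a x‖)} 1)
      (fun x => 2 * (ν (A.act x ⁻¹' E n)).toReal) 1 (by
        intro p hp2
        rw [one_mul]
        by_cases h3 : (n : ℝ) * (l - ε) ≤ 2 * Real.log (2 * ‖A.a p‖)
        · rw [Set.indicator_of_mem (by exact h3)]
          have h4 : A.act p ⁻¹' K p ⊆ A.act p ⁻¹' E n := by
            apply preimage_mono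
            apply subset_biUnion_of_mem (u := fun x => K x)
            exact Finset.mem_filter.2 ⟨hp2, h3⟩
          have h5 : (1 / 2 : ℝ≥0∞) ≤ ν (A.act p ⁻¹' E n) := (hhalf p).trans (measure_mono h4)
          have h6 := ENNReal.toReal_mono (measure_ne_top _ _) h5
          have h7 : (1 / 2 : ℝ≥0∞).toReal = 1 / 2 := by simp
          rw [h7] at h6
          show (1 : ℝ) ≤ _
          linarith
        · rw [Set.indicator_of_notMem (by exact h3)]
          positivity)
    rw [h1] at h2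
    have h3 := (hηn n).trans h2
    have h4 : ν (A.act 1 ⁻¹' E n) = ν (E n) := by
      rw [hms, hms (E n)]
      congr 1
      ext ξ
      constructor
      · rintro ⟨h5, h6⟩
        refine ⟨?_, h6⟩
        have h7 : ‖ξ‖ ≤ 1 := by
          have : ‖ξ‖ = 1 := by simpa [circ] using h6
          exact this.le
        have h8 : A.act 1 ξ ∈ E n := h5
        rwa [S31_one hS02 A ξ h7] at h8
      · rintro ⟨h5, h6⟩
        refine ⟨?_, h6⟩
        have h7 : ‖ξ‖ ≤ 1 := by
          have : ‖ξ‖ = 1 := by simpa [circ] using h6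
          exact this.le
        show A.act 1 ξ ∈ E n
        rwa [S31_one hS02 A ξ h7]
    have h5 : η ≤ 2 * (ν (A.act 1 ⁻¹' E n)).toReal := h3
    rw [h4] at h5
    linarith
  refine ⟨⋂ N, ⋃ n ≥ N, E n, ?_, ?_, ?_⟩
  · apply MeasurableSet.iInter
    intro N
    apply MeasurableSet.iUnion
    intro n
    apply MeasurableSet.iUnion
    intro _
    exact hEm n
  · have hanti : Antitone (fun N => ⋃ n ≥ N, E n) := by
      intro a b hab
      apply biUnion_subset_biUnion_left
      intro n hn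
      exact le_trans hab hn
    rw [hanti.measure_iInter (fun N => by
      apply MeasurableSet.nullMeasurableSet
      apply MeasurableSet.iUnion
      intro n
      apply MeasurableSet.iUnion
      intro _
      exact hEm n) ⟨0, measure_ne_top _ _⟩]
    have h1 : ENNReal.ofReal (η / 2) ≤ ⨅ i, ν (⋃ n ≥ i, E n) := by
      apply le_iInf
      intro i
      have h2 : ν (E i) ≤ ν (⋃ n ≥ i, E n) := by
        apply measure_mono
        exact subset_biUnion_of_mem (u := fun n => E n) (show i ∈ {n | n ≥ i} from le_refl i)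
      refine le_trans ?_ h2
      rw [ENNReal.ofReal_le_iff_le_toReal (measure_ne_top _ _)]
      exact hE1 i
    refine lt_of_lt_of_le ?_ h1
    rw [ENNReal.ofReal_pos]
    positivity
  · have hSne : W.S.Nonempty := by
      rw [Finset.nonempty_iff_ne_empty]
      intro h
      have := W.sum
      rw [h] at this
      simp at this
    have hcard : (1 : ℝ) ≤ W.S.card := by
      exact_mod_cast hSne.card_pos
    have hC : (1 : ℝ) ≤ 32 / r ^ 2 := by
      rw [le_div_iff₀ (by positivity)]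
      nlinarith
    have hC0 : (0 : ℝ) < 32 / r ^ 2 := lt_of_lt_of_le one_pos hC
    have hl0 : 0 < l - ε := by linarith
    apply hS30 E W.S.card (32 / r ^ 2) (l - ε) t hcard hC0 hl0 ht hεt
    intro n
    refine ⟨(G n).image K, ?_, ?_, ?_⟩
    · have h1 : ((G n).image K).card ≤ W.S.card ^ n :=
        Finset.card_image_le.trans ((Finset.card_filter_le _ _).trans Finset.card_pow_le)
      have h2 : (((G n).image K).card : ℝ) ≤ (W.S.card : ℝ) ^ n := by exact_mod_cast h1
      refine h2.trans ?_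
      exact le_mul_of_one_le_left (pow_nonneg (Nat.cast_nonneg _) _) hC
    · intro z hz
      obtain ⟨x, hx, hz2⟩ := mem_iUnion₂.1 hz
      exact mem_iUnion₂.2 ⟨K x, Finset.mem_image_of_mem K hx, hz2⟩
    · intro I hI ξ hξ ξ' hξ'
      obtain ⟨x, hx, rfl⟩ := Finset.mem_image.1 hI
      refine (hKd x ξ hξ ξ' hξ').trans ?_
      have h1 := (Finset.mem_filter.1 hx).2
      have h2 : 1 ≤ ‖A.a x‖ := (hS02 Γ A).1 x
      have h3 : Real.exp ((l - ε) * n) ≤ 4 * ‖A.a x‖ ^ 2 := by
        have h4 : (4 : ℝ) * ‖A.a x‖ ^ 2 = Real.exp (2 * Real.log (2 * ‖A.a x‖)) := by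
          rw [two_mul (Real.log _), Real.exp_add, Real.exp_log (by positivity)]
          ring
        rw [h4]
        apply Real.exp_le_exp.2
        rw [mul_comm (l - ε)]
        exact h1
      rw [Real.exp_neg, div_mul_eq_mul_div, div_le_div_iff₀ (by positivity) (by positivity)]
      have h5 : 1 / (4 * ‖A.a x‖ ^ 2) ≤ (Real.exp ((l - ε) * n))⁻¹ := by
        rw [one_div]
        exact inv_anti₀ (Real.exp_pos _) h3
      calc 8 * r ^ 2 = 32 * (1 / (4 * ‖A.a x‖ ^ 2)) * (‖A.a x‖ ^ 2 * r ^ 2) := by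
            field_simp; norm_num
        _ ≤ 32 * (Real.exp ((l - ε) * n))⁻¹ * (‖A.a x‖ ^ 2 * r ^ 2) := by gcongr
        _ = 32 * (Real.exp ((l - ε) * n))⁻¹ * (r ^ 2 * ‖A.a x‖ ^ 2) := by ring

end Pool.Agent.SG
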