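import Pool.Agent.helper3.SG.SpecN

/-!
# sg:Z02 Normalisation
-/

set_option autoImplicit false

open MeasureTheory Set Metric Filter Topology
open scoped ENNReal NNReal ComplexConjugate

namespace Pool.Agent.SG

theorem Z02 (hS07 : S07_stmt) (hS13 : S13_stmt) (hS19 : S19_stmt) (hS32 : S32_stmt)
    (hM03 : M03_stmt) : Z02_stmt := by
  intro Γ _ hTF hNA W A ν hD hst
  have hNF : A.NoFin := hS07 Γ hTF hNA A hD
  have hNE : A.NonEl := by
    intro Z hZ hZ1
    by_contra hcon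
    push Not at hcon
    refine hNF (Z : Set ℂ) Z.finite_toSet (Finset.coe_nonempty.2 hZ) ?_ ?_
    · intro z hz
      simpa [circ] using hZ1 z (Finset.mem_coe.1 hz)
    · intro γ ξ hξ
      exact Finset.mem_coe.2 (hcon γ ξ (Finset.mem_coe.1 hξ))
  have hat := hM03 Γ A W ν hst hNE
  obtain ⟨p, q, hpq, hN⟩ := hS19 ν hst.prob hst.supp hat
  obtain ⟨A', -, -, hd, -, hs⟩ := hS13 p q hpq Γ A
  refine ⟨A', ν.map (mob p q), hd hD, hs W ν hst, hN, ?_⟩
  intro B' hB' hB1
  exact hS32 p q hpq ν hst.prob hst.supp B' hB' hB1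

end Pool.Agent.SG
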